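import Pool.Agent.Helper14.BSC.Stmts

/-!
# Module UNI: uniqueness of the geometric point
-/

set_option autoImplicit false

namespace Pool.Agent.Helper14.BSC

theorem uni_val {K : Type} [Field K] (O : ValuationSubring K) (x : K) :
    O.valuation x < 1 ↔ (x = 0 ∨ x⁻¹ ∉ O) := by
  by_cases hx : x = 0
  · simp [hx]
  · have h0 : O.valuation x ≠ 0 := (Valuation.ne_zero_iff _).2 hx
    rw [← O.valuation_le_one_iff x⁻¹, map_inv₀, not_le]
    constructor
    · intro h
      right
      exact (one_lt_inv₀ (zero_lt_iff.2 h0)).2 h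
    · rintro (h | h)
      · exact absurd h hx
      · exact (one_lt_inv₀ (zero_lt_iff.2 h0)).1 h

theorem uni_key (hHEN : ST_HEN) (hROOT : ST_ROOT) (hBOT : ST_BOT) (hDIV : ST_DIV)
    {k K Ω : Type} [Field k] [Field K] [Field Ω] [Algebra k K] [Algebra K Ω] [Algebra k Ω]
    [IsScalarTower k K Ω] [CharZero k] [IsAlgClosed Ω] (D : Sec k Ω)
    (hfg : (⊤ : IntermediateField ℚ k).FG)
    (hK : ∀ (g : GG k Ω) (x : K), D.s g (algebraMap K Ω x) = algebraMap K Ω x)
    {O O' : ValuationSubring K} (hO : GeoV k K Ω D O) (hO' : GeoV k K Ω D O') (f : K) (c c' : k)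
    (h : O.valuation (f - algebraMap k K c) < 1) (h' : O'.valuation (f - algebraMap k K c') < 1) :
    c = c' := by
  classical
  obtain ⟨a, ha⟩ := Infinite.exists_notMem_finset ({c, c'} : Finset k)
  simp only [Finset.mem_insert, Finset.mem_singleton, not_or] at ha
  have hca : c - a ≠ 0 := sub_ne_zero.2 (Ne.symm ha.1)
  have hca' : c' - a ≠ 0 := sub_ne_zero.2 (Ne.symm ha.2)
  let fL : LL D := ⟨algebraMap K Ω f, fun g _ => hK g f⟩
  let aL : k → LL D := algebraMap k (LL D)
  have haL : ∀ t : k, ((aL t : LL D) : Ω) = algebraMap k Ω t := fun t => rfl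
  have htower : ∀ t : k, algebraMap K Ω (algebraMap k K t) = algebraMap k Ω t := fun t =>
    (IsScalarTower.algebraMap_apply k K Ω t).symm
  -- the key root extraction
  have root : ∀ (P : ValuationSubring K), GeoV k K Ω D P → ∀ t : k, t - a ≠ 0 →
      P.valuation (f - algebraMap k K t) < 1 → ∀ n : ℕ, 0 < n →
      ∃ y : LL D, (fL - aL a) * (aL (t - a))⁻¹ = y ^ n := by
    rintro P ⟨-, hPk, -, W, hW, hinv⟩ t ht hv n hn
    have hPW : ∀ x : K, algebraMap K Ω x ∈ W ↔ x ∈ P := by
      intro x
      rw [← hW]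
      exact ValuationSubring.mem_comap.symm
    have hkW : ∀ t : k, algebraMap k Ω t ∈ W := by
      intro t
      rw [← htower, hPW]
      exact hPk t
    refine hHEN k Ω D W hkW hinv _ ?_ n hn
    have e1 : ((((fL - aL a) * (aL (t - a))⁻¹ : LL D) : Ω) - 1) =
        algebraMap K Ω (f - algebraMap k K t) * algebraMap k Ω (t - a)⁻¹ := by
      have e2 : algebraMap k Ω (t - a) ≠ 0 := by
        intro h0
        exact ht ((map_eq_zero _).1 h0)
      have e3 : (((fL - aL a) * (aL (t - a))⁻¹ : LL D) : Ω) =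
          (algebraMap K Ω f - algebraMap k Ω a) * (algebraMap k Ω (t - a))⁻¹ := rfl
      rw [e3, map_sub (algebraMap K Ω), htower, map_inv₀]
      field_simp
      rw [map_sub]
      ring
    rw [e1, map_mul]
    have e4 : W.valuation (algebraMap K Ω (f - algebraMap k K t)) < 1 := by
      rw [uni_val]
      rw [uni_val] at hv
      rcases hv with hv | hv
      · left
        rw [hv, map_zero]
      · right
        rw [← map_inv₀, hPW]
        exact hv
    have e5 : W.valuation (algebraMap k Ω (t - a)⁻¹) ≤ 1 :=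
      (W.valuation_le_one_iff _).2 (hkW _)
    exact lt_of_le_of_lt (mul_le_of_le_one_right' e5) e4
  have hfa : fL - aL a ≠ 0 := by
    intro h0
    have h1 : f = algebraMap k K a := by
      have h2 := congrArg (fun x : LL D => (x : Ω)) h0
      have h3 : algebraMap K Ω f - algebraMap k Ω a = 0 := h2
      rw [← htower, ← map_sub] at h3
      exact sub_eq_zero.1 ((map_eq_zero _).1 h3)
    rw [h1, ← map_sub, uni_val] at h
    rcases h with h | h
    · have := (map_eq_zero (algebraMap k K)).1 h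
      exact hca (by rw [← neg_sub, this, neg_zero])
    · apply h
      rw [← map_inv₀]
      exact hO.2.1 _
  have hρ : (c' - a) * (c - a)⁻¹ = 1 := by
    refine hDIV k hfg _ (mul_ne_zero hca' (inv_ne_zero hca)) ?_
    intro n hn
    obtain ⟨y, hy⟩ := root O hO c hca h n hn
    obtain ⟨y', hy'⟩ := root O' hO' c' hca' h' n hn
    have haLc : aL (c - a) ≠ 0 := fun h0 => hca ((map_eq_zero _).1 h0)
    have haLc' : aL (c' - a) ≠ 0 := fun h0 => hca' ((map_eq_zero _).1 h0)
    have h1 : (y * y'⁻¹) ^ n = aL ((c' - a) * (c - a)⁻¹) := by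
      rw [mul_pow, inv_pow, ← hy, ← hy']
      have e6 : aL ((c' - a) * (c - a)⁻¹) = aL (c' - a) * (aL (c - a))⁻¹ := by
        simp only [aL]
        rw [map_mul, map_inv₀]
      rw [e6]
      field_simp
    obtain ⟨d, hd⟩ := hROOT k Ω D ∅ n hn (y * y'⁻¹) (algebraMap k (FF (∅ : Set (Acl k Ω))) ((c' - a) * (c - a)⁻¹))
      (by
        rw [h1, (inc D ∅).commutes])
    obtain ⟨t, ht⟩ := hBOT k Ω (d : Acl k Ω) d.2
    refine ⟨t, ?_⟩
    have h2 : inc D ∅ d = aL t := by
      apply Subtype.ext
      rw [coe_inc, ht]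
      rfl
    rw [hd, h2] at h1
    have h3 : aL (t ^ n) = aL ((c' - a) * (c - a)⁻¹) := by
      rw [← h1]
      simp only [aL]
      rw [map_pow]
    exact ((algebraMap k (LL D)).injective h3).symm
  have h4 : c' - a = c - a := by
    have := congrArg (fun x => x * (c - a)) hρ
    simpa [mul_assoc, inv_mul_cancel₀ hca] using this
  linear_combination -h4

theorem uni_le (hHEN : ST_HEN) (hROOT : ST_ROOT) (hBOT : ST_BOT) (hDIV : ST_DIV)
    {k K Ω : Type} [Field k] [Field K] [Field Ω] [Algebra k K] [Algebra K Ω] [Algebra k Ω]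
    [IsScalarTower k K Ω] [CharZero k] [IsAlgClosed Ω] (D : Sec k Ω)
    (hfg : (⊤ : IntermediateField ℚ k).FG)
    (hK : ∀ (g : GG k Ω) (x : K), D.s g (algebraMap K Ω x) = algebraMap K Ω x)
    {O O' : ValuationSubring K} (hO : GeoV k K Ω D O) (hO' : GeoV k K Ω D O') (f : K)
    (hf : f ∈ O) : f ∈ O' := by
  classical
  by_contra hcon
  obtain ⟨c, hc⟩ := hO.2.2.1 f hf
  obtain ⟨a, ha⟩ := Infinite.exists_notMem_finset ({c} : Finset k)
  simp only [Finset.mem_singleton] at ha
  have hca : c - a ≠ 0 := sub_ne_zero.2 (Ne.symm ha)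
  have hfa : f - algebraMap k K a ≠ 0 := by
    intro h0
    apply hcon
    rw [sub_eq_zero.1 h0]
    exact hO'.2.1 a
  have hfc : f - algebraMap k K a = (f - algebraMap k K c) + algebraMap k K (c - a) := by
    rw [map_sub]
    ring
  have hcaK : algebraMap k K (c - a) ≠ 0 := fun h0 => hca ((map_eq_zero _).1 h0)
  -- the valuation of `f - a` in `O` is one
  have hv1 : O.valuation (algebraMap k K (c - a)) = 1 := by
    apply le_antisymm
    · exact (O.valuation_le_one_iff _).2 (hO.2.1 _)
    · by_contra hlt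
      rw [not_le, uni_val] at hlt
      rcases hlt with h | h
      · exact hcaK h
      · apply h
        rw [← map_inv₀]
        exact hO.2.1 _
  have hv2 : O.valuation (f - algebraMap k K a) = 1 := by
    rw [hfc, Valuation.map_add_eq_of_lt_right _ (by rw [hv1]; exact hc), hv1]
  -- residue in `O`
  have h1 : O.valuation ((f - algebraMap k K a)⁻¹ - algebraMap k K (c - a)⁻¹) < 1 := by
    have e1 : (f - algebraMap k K a)⁻¹ - algebraMap k K (c - a)⁻¹ =
        -(f - algebraMap k K c) * ((f - algebraMap k K a)⁻¹ * (algebraMap k K (c - a))⁻¹) := by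
      rw [map_inv₀]
      field_simp
      rw [map_sub]
      ring
    rw [e1, map_mul, map_mul, map_inv₀, map_inv₀, hv2, hv1, Valuation.map_neg]
    simpa using hc
  -- residue in `O'`
  have h2 : O'.valuation ((f - algebraMap k K a)⁻¹ - algebraMap k K 0) < 1 := by
    rw [map_zero, sub_zero, uni_val]
    right
    rw [inv_inv]
    intro h3
    apply hcon
    have := O'.add_mem _ _ h3 (hO'.2.1 a)
    rwa [sub_add_cancel] at this
  have h3 := uni_key hHEN hROOT hBOT hDIV D hfg hK hO hO' _ _ _ h1 h2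
  exact inv_ne_zero hca h3

theorem st_UNI (hHEN : ST_HEN) (hROOT : ST_ROOT) (hBOT : ST_BOT) (hDIV : ST_DIV) : ST_UNI := by
  intro k K Ω _ _ _ _ _ _ _ _ _ _ D hfg hK O O' hO hO'
  apply le_antisymm
  · intro f hf
    exact uni_le hHEN hROOT hBOT hDIV D hfg hK hO hO' f hf
  · intro f hf
    exact uni_le hHEN hROOT hBOT hDIV D hfg hK hO' hO f hf

end Pool.Agent.Helper14.BSC
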